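import Pool.Agent.H9.UZ.Tar
import Pool.Agent.H41.UZ.TN

/-! # AM4: the set of the full names over a closed set of labels is in `H` -/

set_option linter.unusedVariables false

open Ordinal Order Set
open scoped ZFSet

namespace SE.UZ

open SF CAA _root_.UZ

theorem pf_AM4 (hM2 : T_AM2) (hM3 : T_AM3) (hAC : T_AC) (hAF : T_AF) (hBBb : T_BBb)
    (hBBc : T_BBc) (hBD : T_BD) (hBJ : T_BJ) (hBR : T_BR) (hCH : T_CH) : T_AM4 := by
  intro τ μ κ g2 D ok hDN hDH ρ hρ hc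
  have g := g2.g
  have kC : ZFCm D.N := ok.zfc.toZFCm
  have kN : ZFm D.N := kC.toZFm
  obtain ⟨hNL, trH, hHN, -, -⟩ := hBJ D ok
  obtain ⟨brs, brf, -, -, brP, -, hsqH, -⟩ := hBR D ok
  obtain ⟨hPH, -, -, -, hYH⟩ := brP ρ hρ
  have hρN : D.N ρ := hHN ρ hρ
  -- the level
  have hMH : LA ∅ μ ∈ D.H := by rw [hDH]; exact Lh_mem g.μκ
  have hMN : D.N (LA ∅ μ) := hHN _ hMH
  -- the set of pairs
  obtain ⟨x, hx⟩ : ∃ x, x = ZFSet.prod (D.P ρ) sq := ⟨_, rfl⟩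
  have hxH : x ∈ D.H := by
    rw [hx]
    exact TN.mem (u := fun _ => D.P ρ) ok.zfH
      (TN.prod ok.zfH (TN.cst hPH) (TN.cst hsqH)) (fun _ => hPH)
  have hxne : x ≠ ∅ := by
    intro h0
    have h1 : ZFSet.pair ∅ ∅ ∈ x := by
      rw [hx]
      exact ZFSet.pair_mem_prod.2 ⟨hBD.1 _ _, (hAF.1 _).2 ⟨0, hAF.2.1⟩⟩
    rw [h0] at h1
    exact ZFSet.notMem_empty _ h1
  obtain ⟨f, hfN, hf, hon⟩ : ∃ f, D.N f ∧ Onto f (LA ∅ μ) x := by
    rw [hDH] at hxH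
    obtain ⟨f, h1, h2⟩ := (g2.sx x hxH).resolve_left hxne
    exact ⟨f, by rw [hDN]; exact h1, h2⟩
  -- the function
  have hPhi : TN D.N (fun u => cln D.L ρ (im f (u 0))) :=
    TN.of3 kN (P := fun _ a b c => cln a b c) hM3.1 (TN.cst hNL) (TN.cst hρN)
      (TN.of2 kN (P := fun _ a b => im a b) hBBc.2.2.2.1 (TN.cst hfN) (TN.var kN 0))
  obtain ⟨Φ, hΦ⟩ : ∃ Φ : V → V, Φ = fun a => cln D.L ρ (im f a) := ⟨_, rfl⟩
  have hPhi' : TN D.N (fun u => Φ (u 0)) := by rw [hΦ]; exact hPhi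
  have ΦN : ∀ a, D.N a → D.N (Φ a) := fun a ha =>
    TN.mem kN hPhi' (u := fun _ => a) fun _ => ha
  obtain ⟨S0, hS0⟩ : ∃ S0, S0 = (LA ∅ μ).sep fun a => Nam D.L ρ (Φ a) := ⟨_, rfl⟩
  have hS0N : D.N S0 := by
    rw [hS0]
    exact DN.sepN kN (S := fun u => Nam D.L ρ (Φ (u 0)))
      (DN.of3 kN (P := fun _ a b c => Nam a b c) hBBb.1 (TN.cst hNL) (TN.cst hρN) hPhi') hMN
      (u := fun _ => ρ) (fun _ => hρN)
  have hS0H : S0 ∈ D.H := brs _ _ hS0N hMH (by rw [hS0]; exact ZFSet.sep_subset)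
  obtain ⟨q, hq⟩ : ∃ q, q = resS S0 Φ := ⟨_, rfl⟩
  have hqN : D.N q := by
    rw [hq]
    exact TN.mem kN (TN.resS kN (TN.cst hS0N) hPhi') (u := fun _ => ρ) (fun _ => hρN)
  have hrg : ∀ Y, Y ∈ rg q ↔ ∃ a ∈ S0, Y = Φ a := fun Y => by
    rw [mem_rg]
    refine exists_congr fun a => ?_
    rw [hq, pair_mem_resS]
  have hin : ∀ a ∈ S0, D.N (Φ a) ∧ Nam D.L ρ (Φ a) := fun a ha => by
    rw [hS0, ZFSet.mem_sep] at ha
    exact ⟨ΦN a (kN.trans _ hMN _ ha.1), ha.2⟩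
  refine ⟨rg q, (brf q S0 hqN (by rw [hq]; exact svl_resS _ _) (by rw [hq]; exact dm_resS _ _)
    hS0H ?_).1, fun Y => ?_⟩
  · intro Y hY
    obtain ⟨a, ha, rfl⟩ := (hrg Y).1 hY
    exact hYH _ (hin a ha).1 (hin a ha).2
  · rw [hrg]
    constructor
    · rintro ⟨a, ha, rfl⟩
      exact hin a ha
    · rintro ⟨hYN, hYn⟩
      obtain ⟨A, hAc, hAx, hYA⟩ := hM3.2 D ok ρ hρN hc Y hYN hYn
      rw [← hx] at hAx
      have hAN : D.N A := (hAC D.N kN).1 A hAc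
      obtain ⟨h, hhN, hsv, hdm, hh⟩ := hCH
        (fun _ v => v 1 ∈ v 2 ∧ app (v 3) (v 1) = v 0)
        ((Dfb.mem (Tm.var 1) (Tm.var 2)).and (Dfb.eq (Tm.app (Tm.var 3) (Tm.var 1)) (Tm.var 0)))
        D.N kC (cons (LA ∅ μ) fun _ => f) (In.cons (fun _ => hfN) hMN) A hAN (by
          intro y hy
          obtain ⟨a, ha, h1⟩ := hon y (hAx hy)
          exact ⟨a, kN.trans _ hMN _ ha, ha, app_eq (svl_of_isFunc hf) h1⟩)
      have hh' : ∀ y ∈ A, app h y ∈ LA ∅ μ ∧ app f (app h y) = y := hh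
      have har : ∀ a, a ∈ rg h ↔ ∃ y ∈ A, a = app h y := fun a => by
        rw [mem_rg]
        constructor
        · rintro ⟨y, hy⟩
          have h2 : y ∈ A := by rw [← hdm]; exact mem_dm.2 ⟨_, hy⟩
          exact ⟨y, h2, (app_eq hsv hy).symm⟩
        · rintro ⟨y, hy, rfl⟩
          rw [← hdm] at hy
          obtain ⟨z, hz⟩ := mem_dm.1 hy
          exact ⟨y, by rw [app_eq hsv hz]; exact hz⟩
      have hac : Ctbl D.N (rg h) := (hAC D.N kN).2.2.2.2.2 A h hhN hsv hAc (by rw [hdm])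
      have haM : rg h ∈ LA ∅ μ := by
        refine hM2 τ μ κ g2 (rg h) ?_ ?_ ?_
        · have := (hAC D.N kN).1 _ hac
          rw [hDN] at this
          exact this
        · rw [hDN] at hac
          exact hac
        · intro a ha
          obtain ⟨y, hy, rfl⟩ := (har a).1 ha
          exact (hh' y hy).1
      have him : im f (rg h) = A := by
        ext z
        constructor
        · intro hz
          obtain ⟨a, ha, rfl⟩ := mem_imS.1 hz
          obtain ⟨y, hy, rfl⟩ := (har a).1 ha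
          show app f (app h y) ∈ A
          rw [(hh' y hy).2]
          exact hy
        · intro hz
          exact mem_imS.2 ⟨app h z, (har _).2 ⟨z, hz, rfl⟩, (hh' z hz).2⟩
      have hΦY : Φ (rg h) = Y := by
        rw [hΦ]
        show cln D.L ρ (im f (rg h)) = Y
        rw [him, hYA]
      refine ⟨rg h, ?_, hΦY.symm⟩
      rw [hS0, ZFSet.mem_sep, hΦY]
      exact ⟨haM, hYn⟩

end SE.UZ
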