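import Pool.Agent.H7.UZ.View

/-! # MP_f6fd33_lc, module LK: (K) at stage `σ` -/

set_option linter.unusedVariables false

open Ordinal Order Set
open scoped ZFSet

namespace SE.UZ

open SF

theorem pf_LK (PWE : T_PWE) (PSJ : T_PSJ) (POA : T_POA) (PHA : T_PHA) (PW2 : T_PW2)
    (QRN : T_QRN) (BL : T_BL) : T_LK := by
  intro D κ b σ hC hPP hPF B h hw G hG X y hX hnd hRg hy j hj hcj hlt hSn
  have hD : D.Ok := hC.am.ok
  have hiw := (PWE b D σ B h).1 hw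
  have hO : b.Obs B := hiw.wo.o
  have hcs : CS D (b.u B) := hC.ok.cs B hO.o
  have hBN : D.N (b.u B) := HV.N_of_H hD hcs.h
  obtain ⟨A, h00, hAO, hAB, hAu, hwA, hLW, hrest⟩ :=
    HV.view PWE PSJ POA PHA PW2 hC hw hj hcj (hPF _ hlt.le)
  obtain ⟨hLs, hcn, htH, hFr⟩ := hrest hlt
  obtain ⟨-, -, hvN, hvT, -⟩ := (POA D κ hC.am b hC.ok B hO).2.2 j hj hcj |>.2
  have hAB' : vw j ⊆ b.u B := ((POA D κ hC.am b hC.ok B hO).2.2 j hj hcj).2.1
  generalize hrr : b.sj D (b.Wd D) σ (tm j) = r at *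
  obtain ⟨-, hR2, -⟩ := QRN D hD (b.u B) G (vw j) hBN hcs.c hG hvN hAB' hvT
  obtain ⟨-, hBL⟩ := BL D hD (b.u B) G hBN hcs.c hG
  obtain ⟨hGA, -⟩ := hBL (vw j) hvN hAB' hvT
  have hXA : RR D (b.u A) G X := by rw [hAu]; exact hSn.1
  have hyA : RR D (b.u A) G y := by rw [hAu]; exact hSn.2
  obtain ⟨hP1, hP2⟩ := hPP r hlt.le hLs (by rw [hcn]; exact htH) A h00 B h hwA hw hLW hFr G hG X hXA
  have hndA : ¬ Dcc h00 (gs G (b.u A)) X := by
    rintro ⟨y', e, hE⟩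
    have hHis00 : His D (b.u A) h00 r := ((PWE b D r A h00).1 hwA).wo.hs
    have hcA : CS D (b.u A) := hC.ok.cs A hAO.o
    obtain ⟨q1, -, -⟩ := PHA D hD (b.u A) (b.u B) h00 r (HV.N_of_H hD hcA.h) hcA.c hBN hcs.c
      (by rw [hAu]; exact hAB') hHis00
    obtain ⟨q1a, -⟩ := q1 G hG
    have hE' : Ent h00 G X y' e := ((q1a X y' e).1).2 hE
    have her := ((q1a X y' e).2 hE').2.2.1
    exact hnd ⟨y', e, ((hLW.e G hG X hXA y' e).1 ⟨hE', her⟩).1⟩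
  have hXA' : RR D (b.u A) (gs G (b.u A)) X := by
    rw [hAu]; exact (hR2 X).1 hSn.1
  have hyA' : RR D (b.u A) (gs G (b.u A)) y := by
    rw [hAu]; exact (hR2 y).1 hSn.2
  have hnR := hLs A h00 hwA (gs G (b.u A)) (by rw [hAu]; exact hGA) X hXA' hndA
  by_cases hN : b.Nn D (b.Wd D) r A h00 (gs G (b.u A)) X
  · exact hRg.1 (hP2 hN)
  · by_cases hK : b.Kb D (b.Wd D) r A h00 (gs G (b.u A)) X y
    · exact hy (hP1 y hyA hK)
    · exact hnR ⟨hN, y, hyA', hK⟩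

end SE.UZ
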