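import Pool.Agent.H7.UZ.Two

/-!
# MP_f6fd33_lc, module LU, case 2: all labels which see the candidate have the stage `r`
-/

set_option linter.unusedVariables false

open Ordinal Order Set
open scoped ZFSet

namespace SE.UZ.HV

open SF

theorem N_union {M : V → Prop} (hM : ZFm M) {x y : V} (hx : M x) (hy : M y) : M (x ∪ y) :=
  hM.union _ (hM.pair _ _ hx hy)

theorem Cld_union {L x y : V} (hx : Cld L x) (hy : Cld L y) : Cld L (x ∪ y) := by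
  intro i hi
  rcases ZFSet.mem_union.1 hi with h | h
  · exact ⟨(hx i h).1, fun j hj => ZFSet.mem_union.2 (Or.inl ((hx i h).2 hj))⟩
  · exact ⟨(hy i h).1, fun j hj => ZFSet.mem_union.2 (Or.inr ((hy i h).2 hj))⟩

theorem Tr_of_Cld {L x : V} (hx : Cld L x) : Tr x := fun i hi => (hx i hi).2

/-- extension of generic filters -/
theorem ext_gen (BD : T_BD) (BJ : T_BJ) (BM : T_BM) {D : Cx} (hD : D.Ok) {ρ0 ρ G0 : V}
    (h0 : D.N ρ0) (h1 : D.N ρ) (c0 : Cld D.L ρ0) (c1 : Cld D.L ρ) (hs : ρ0 ⊆ ρ)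
    (hG : D.Gn ρ0 G0) : ∃ G, D.Gn ρ G ∧ gs G ρ0 = G0 := by
  have he : rst ρ0 ∅ = (∅ : V) := by
    unfold rst
    rw [ZFSet.eq_empty]
    intro z hz
    exact ZFSet.notMem_empty z (ZFSet.mem_sep.1 hz).1
  obtain ⟨-, -, -, -, j5⟩ := BJ D hD
  obtain ⟨-, j6⟩ := j5 ρ0 h0 c0
  obtain ⟨-, ⟨-, g2, -⟩, -⟩ := j6 G0 hG
  obtain ⟨G, h2, -, h3⟩ := BM D hD ρ0 ρ G0 ∅ h0 h1 c1 hs (Tr_of_Cld c0) hG (BD.1 D.L ρ)
    (by rw [he]; exact g2)
  exact ⟨G, h2, h3⟩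

/-- the conclusion of (U) -/
def UC (D : Cx) (b : BS) (r : Ordinal.{0}) (B h G X : V) : Prop :=
  ∃ B' h' G' y, b.Ew D (b.Wd D) r B h G B' h' G' ∧ RR D (b.u B') G' y ∧ ¬ RR D (b.u B) G' y ∧
    ¬ b.Kb D (b.Wd D) r B' h' G' X y ∧ ∀ j ∈ b.u B', b.Co j → ¬ Sn D G' X y j

theorem case2 (PWE : T_PWE) (PSJ : T_PSJ) (POA : T_POA) (POB : T_POB) (PHA : T_PHA)
    (PW2 : T_PW2) (A1 : T_A1) (QRN : T_QRN) (BD : T_BD) (BJ : T_BJ) (BL : T_BL) (BM : T_BM)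
    {D : Cx} {κ : V} {b : BS} {r : Ordinal.{0}} (hC : Ctx D κ b r) (hPA : b.PA D r)
    (hPI : b.PI D r) (hPF : b.PF D r) {B h : V} (hw : b.Wd D r B h) {G : V}
    (hG : D.Gn (b.u B) G) {X : V} (hX : RR D (b.u B) G X) {B' h' G' y : V}
    (hE : b.Ew D (b.Wd D) r B h G B' h' G') (hy : RR D (b.u B') G' y)
    (hy0 : ¬ RR D (b.u B) G' y) (hyK : ¬ b.Kb D (b.Wd D) r B' h' G' X y)
    (hall : ∀ j ∈ b.u B', b.Co j → Sn D G' X y j → b.sj D (b.Wd D) r (tm j) = r) :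
    ∀ o : Ordinal.{0}, ∀ j ∈ b.u B', j.rank = o → b.Co j → Sn D G' X y j → UC D b r B h G X := by
  intro o
  induction o using WellFoundedLT.induction with
  | ind o ih =>
  intro j hj hjo hcj hSn
  by_cases hex : ∃ k ∈ vw j, b.Co k ∧ Sn D G' X y k
  · obtain ⟨k, hk, hck, hSk⟩ := hex
    obtain ⟨-, -, p3⟩ := POA D κ hC.am b hC.ok B' ((PWE b D r B' h').1 hE.w).wo.o
    obtain ⟨-, hvB, -, -, -, -, hrk⟩ := p3 j hj hcj
    exact ih k.rank (by rw [← hjo]; exact hrk k hk) k (hvB hk) rfl hck hSk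
  push Not at hex
  have hD : D.Ok := hC.am.ok
  have hM : ZFm D.N := hD.zfc.toZFCm.toZFm
  have hO : b.Obs B := ((PWE b D r B h).1 hw).wo.o
  have hO' : b.Obs B' := ((PWE b D r B' h').1 hE.w).wo.o
  obtain ⟨A, h00, hAO, hAB, hAu, hwA, hLW, -⟩ :=
    view PWE PSJ POA PHA PW2 hC hE.w hj hcj (by rw [hall j hj hcj hSn]; exact hPF)
  rw [hall j hj hcj hSn] at hwA hLW
  have hcs : ∀ B ∈ b.Ob, D.N (b.u B) ∧ Cld D.L (b.u B) ∧ Tr (b.u B) := fun B hB =>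
    ⟨N_of_H hD (hC.ok.cs B hB).h, (hC.ok.cs B hB).c, Tr_of_Cld (hC.ok.cs B hB).c⟩
  obtain ⟨nA, cA, tA⟩ := hcs A hAO.o
  obtain ⟨nB, cB, tB⟩ := hcs B hO.o
  obtain ⟨nB', cB', tB'⟩ := hcs B' hO'.o
  have sAB' : b.u A ⊆ b.u B' := (hC.ok.leO _ _ hAB).2.2
  have sBB' : b.u B ⊆ b.u B' := (hC.ok.leO _ _ hE.le.le).2.2
  -- the meet
  obtain ⟨E, hEB', hEu⟩ := hC.ok.meet A B B' hAB hE.le.le
  obtain ⟨hEO, hEA, hEB⟩ := (POA D κ hC.am b hC.ok B' hO').2.1 A B E hAB hE.le.le hAO hO hEB' hEu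
  -- the family
  have hI : ∀ v ∈ I2, v = nS 0 ∨ v = nS 1 := fun v hv => mem_I2.1 hv
  have hAg : b.Ag D I2 (two A B) := by
    refine ⟨N_two hD (hM.trans _ hC.ok.nO _ hAO.o) (hM.trans _ hC.ok.nO _ hO.o), H_I2 hD, ?_, ?_⟩
    · intro v hv
      rcases hI v hv with rfl | rfl
      · rw [two0]; exact hAO.o
      · rw [two1]; exact hO.o
    · intro v hv v' hv'
      rcases hI v hv with rfl | rfl <;> rcases hI v' hv' with rfl | rfl
      · rw [two0]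
        refine ⟨A, hC.ok.rfl A hAO.o, hC.ok.rfl A hAO.o, ?_⟩
        apply ZFSet.ext; intro x; rw [ZFSet.mem_inter]; tauto
      · rw [two0, two1]
        exact ⟨E, hEA, hEB, hEu⟩
      · rw [two0, two1]
        refine ⟨E, hEB, hEA, ?_⟩
        rw [hEu]
        apply ZFSet.ext; intro x; rw [ZFSet.mem_inter, ZFSet.mem_inter]; tauto
      · rw [two1]
        refine ⟨B, hC.ok.rfl B hO.o, hC.ok.rfl B hO.o, ?_⟩
        apply ZFSet.ext; intro x; rw [ZFSet.mem_inter]; tauto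
  have hOv : ∀ v ∈ I2, b.Obs (app (two A B) v) := by
    intro v hv
    rcases hI v hv with rfl | rfl
    · rw [two0]; exact hAO
    · rw [two1]; exact hO
  obtain ⟨-, -, hbd⟩ := POB D κ hC.am b hC.ok I2 (two A B) hAg hOv
  obtain ⟨B3, hO3, hle3, hnew⟩ := hbd ∅ (by rw [← nS_zero]; exact nS_N hD.zfH 0)
  have hA3 : b.Le A B3 := by
    have := (hle3 (nS 0) nS0_mem).2
    rwa [two0] at this
  have hB3 : b.Le B B3 := by
    have := (hle3 (nS 1) nS1_mem).2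
    rwa [two1] at this
  obtain ⟨n3, c3, t3⟩ := hcs B3 hO3.o
  have sA3 : b.u A ⊆ b.u B3 := (hC.ok.leO _ _ hA3).2.2
  have sB3 : b.u B ⊆ b.u B3 := (hC.ok.leO _ _ hB3).2.2
  have nU : D.N (b.u A ∪ b.u B) := N_union hM nA nB
  have cU : Cld D.L (b.u A ∪ b.u B) := Cld_union cA cB
  have sA : b.u A ⊆ b.u A ∪ b.u B := fun x hx => ZFSet.mem_union.2 (Or.inl hx)
  have sB : b.u B ⊆ b.u A ∪ b.u B := fun x hx => ZFSet.mem_union.2 (Or.inr hx)
  have sU' : b.u A ∪ b.u B ⊆ b.u B' := fun x hx => (ZFSet.mem_union.1 hx).elim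
    (fun h => sAB' h) fun h => sBB' h
  have sU3 : b.u A ∪ b.u B ⊆ b.u B3 := fun x hx => (ZFSet.mem_union.1 hx).elim
    (fun h => sA3 h) fun h => sB3 h
  -- values of histories
  have hisA : His D (b.u A) h00 r := ((PWE b D r A h00).1 hwA).wo.hs
  have hisB : His D (b.u B) h r := ((PWE b D r B h).1 hw).wo.hs
  obtain ⟨vA3, -, -⟩ := PHA D hD (b.u A) (b.u B3) h00 r nA cA n3 c3 sA3 hisA
  obtain ⟨vA', -, -⟩ := PHA D hD (b.u A) (b.u B') h00 r nA cA nB' cB' sAB' hisA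
  obtain ⟨vB3, -, -⟩ := PHA D hD (b.u B) (b.u B3) h r nB cB n3 c3 sB3 hisB
  obtain ⟨vB', -, -⟩ := PHA D hD (b.u B) (b.u B') h r nB cB nB' cB' sBB' hisB
  have key : ∀ H, D.Gn (b.u B3) H → ∀ X', RR D (b.u A) H X' → RR D (b.u B) H X' → ∀ y' e,
      (Ent h00 H X' y' e ↔ Ent h H X' y' e) := by
    intro H hH X' hXA hXB y' e
    have gU : D.Gn (b.u A ∪ b.u B) (gs H (b.u A ∪ b.u B)) :=
      ((BL D hD (b.u B3) H n3 c3 hH).2 _ nU sU3 (Tr_of_Cld cU)).1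
    obtain ⟨K, hK, hKU⟩ := ext_gen BD BJ BM hD nU nB' cU cB' sU' gU
    have eA : gs K (b.u A) = gs H (b.u A) := gs_eq sA (by rw [hKU])
    have eB : gs K (b.u B) = gs H (b.u B) := gs_eq sB (by rw [hKU])
    have hXA' : RR D (b.u A) K X' := (RR_congr eA).2 hXA
    have hXB' : RR D (b.u B) K X' := (RR_congr eB).2 hXB
    have q1 : Ent h00 H X' y' e ↔ Ent h00 K X' y' e := by
      rw [((vA3 H hH).1 X' y' e).1, ((vA' K hK).1 X' y' e).1, eA]
    have q2 : Ent h H X' y' e ↔ Ent h K X' y' e := by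
      rw [((vB3 H hH).1 X' y' e).1, ((vB' K hK).1 X' y' e).1, eB]
    rw [q1, q2]
    constructor
    · intro hh
      have he := (((vA' K hK).1 X' y' e).2 hh).2.2.1
      exact ((hE.le.e K hK X' hXB' y' e).2 ((hLW.e K hK X' hXA' y' e).1 ⟨hh, he⟩)).1
    · intro hh
      have he := (((vB' K hK).1 X' y' e).2 hh).2.2.1
      exact ((hLW.e K hK X' hXA' y' e).2 ((hE.le.e K hK X' hXB' y' e).1 ⟨hh, he⟩)).1
  have hAF := A1 D κ b r hC I2 (two A B) (two h00 h) B3 (N_I2 hD) hAg.n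
    (N_two hD hisA.n hisB.n) hO3
    (by
      intro v hv
      rcases hI v hv with rfl | rfl
      · rw [two0, two0]; exact ⟨hwA, hA3⟩
      · rw [two1, two1]; exact ⟨hw, hB3⟩)
    (by
      intro H hH v hv v' hv' X' hX' y' e he
      have mono : ∀ C : V, b.Le C B3 → ∀ C' : V, b.Le C' B3 → RR D (b.u C ∩ b.u C') H X' →
          RR D (b.u C) H X' ∧ RR D (b.u C') H X' := by
        intro C hC3 C' hC3' hx
        obtain ⟨oC, -, sC⟩ := hC.ok.leO _ _ hC3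
        obtain ⟨oC', -, sC'⟩ := hC.ok.leO _ _ hC3'
        obtain ⟨n1, k1, t1⟩ := hcs C oC
        obtain ⟨n2, k2, t2⟩ := hcs C' oC'
        obtain ⟨E', hE', hEu'⟩ := hC.ok.meet C C' B3 hC3 hC3'
        obtain ⟨oE, -, sE⟩ := hC.ok.leO _ _ hE'
        obtain ⟨n5, k5, t5⟩ := hcs E' oE
        rw [← hEu'] at hx
        obtain ⟨-, -, -, -, -, -, -, m, -⟩ := QRN D hD (b.u B3) H (b.u E') n3 c3 hH n5 sE t5
        refine ⟨m (b.u C) n1 ?_ sC t1 X' hx, m (b.u C') n2 ?_ sC' t2 X' hx⟩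
        · rw [hEu']; exact fun z hz => (ZFSet.mem_inter.1 hz).1
        · rw [hEu']; exact fun z hz => (ZFSet.mem_inter.1 hz).2
      rcases hI v hv with rfl | rfl <;> rcases hI v' hv' with rfl | rfl
      · rw [two0]
      · rw [two0, two1] at *
        obtain ⟨x1, x2⟩ := mono A hA3 B hB3 hX'
        exact key H hH X' x1 x2 y' e
      · rw [two0, two1] at *
        obtain ⟨x1, x2⟩ := mono B hB3 A hA3 hX'
        exact (key H hH X' x2 x1 y' e).symm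
      · rw [two1])
    (by
      intro k hk hck
      by_contra hno
      push Not at hno
      exact not_Co (hnew k hk hno).1 hck)
  obtain ⟨h3, hw3, hle⟩ := hPA I2 (two A B) (two h00 h) (fun _ => r) B3 hAF
  have hLA3 : b.LW D r A h00 B3 h3 := by
    have := hle (nS 0) nS0_mem
    rwa [two0, two0] at this
  have hLB3 : b.LW D r B h B3 h3 := by
    have := hle (nS 1) nS1_mem
    rwa [two1, two1] at this
  -- the filter
  have gU' : D.Gn (b.u A ∪ b.u B) (gs G' (b.u A ∪ b.u B)) :=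
    ((BL D hD (b.u B') G' nB' cB' hE.g).2 _ nU sU' (Tr_of_Cld cU)).1
  obtain ⟨G3, hG3, hG3U⟩ := ext_gen BD BJ BM hD nU n3 cU c3 sU3 gU'
  have eA : gs G3 (b.u A) = gs G' (b.u A) := by
    have := gs_eq (G := G3) (G' := gs G' (b.u A ∪ b.u B)) sA (by rw [hG3U, gs_gs (fun x hx => hx)])
    rw [this, gs_gs sA]
  have eB : gs G3 (b.u B) = gs G' (b.u B) := by
    have := gs_eq (G := G3) (G' := gs G' (b.u A ∪ b.u B)) sB (by rw [hG3U, gs_gs (fun x hx => hx)])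
    rw [this, gs_gs sB]
  have hXA' : RR D (b.u A) G' X := by rw [hAu]; exact hSn.1
  have hyA' : RR D (b.u A) G' y := by rw [hAu]; exact hSn.2
  have hyB3 : ¬ RR D (b.u B) G3 y := fun hh => hy0 ((RR_congr eB).1 hh)
  refine ⟨B3, h3, G3, y, ⟨hw3, hLB3, hG3, by rw [eB, hE.r]⟩, ?_, hyB3, ?_, ?_⟩
  · exact (QRN D hD (b.u B3) G3 (b.u A) n3 c3 hG3 nA sA3 tA).2.2.1 y ((RR_congr eA).2 hyA')
  · intro hK
    have k1 := (PW2 D κ hC.am b hC.ok).2 r r A h00 B3 h3 G3 X y le_rfl hwA hw3 hLA3 hG3 hK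
    rw [eA] at k1
    exact hyK (((hPI A h00 B' h' hwA hE.w hLW G' hE.g X hXA').1 y hyA').1 k1)
  · intro k hk hck hSk
    by_cases hkB : k ∈ b.u B
    · obtain ⟨-, -, p3⟩ := POA D κ hC.am b hC.ok B hO
      obtain ⟨-, hvB, -, nv, tv, -, -⟩ := p3 k hkB hck
      obtain ⟨-, -, -, -, -, -, -, m, -⟩ := QRN D hD (b.u B3) G3 (vw k) n3 c3 hG3 nv
        (fun x hx => sB3 (hvB hx)) tv
      exact hyB3 (m (b.u B) nB hvB sB3 tB y hSk.2)
    by_cases hkA : k ∈ b.u A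
    · have hkj : k ∈ vw j := by rw [← hAu]; exact hkA
      obtain ⟨-, -, p3⟩ := POA D κ hC.am b hC.ok A hAO
      obtain ⟨-, hvA, -, nv, tv, -, -⟩ := p3 k hkA hck
      have ek : gs G3 (vw k) = gs G' (vw k) := gs_eq hvA eA
      exact hex k hkj hck ⟨(RR_congr ek).1 hSk.1, (RR_congr ek).1 hSk.2⟩
    · refine not_Co (hnew k hk ?_).1 hck
      intro v hv
      rcases hI v hv with rfl | rfl
      · rw [two0]; exact hkA
      · rw [two1]; exact hkB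

end SE.UZ.HV
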