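import Pool.Agent.H7.UZ.Am
import Pool.Agent.H7.UZ.LU2

/-!
# MP_f6fd33_lc, module LU: (U), unseen candidates
-/

set_option linter.unusedVariables false

open Ordinal Order Set
open scoped ZFSet

namespace SE.UZ

open SF

namespace HV

open LC

/-- case 1: a label of a smaller stage sees the candidate -/
theorem case1 (L : Lib) (LLt : T_LL) {D : Cx} {κ : V} {b : BS} {r : Ordinal.{0}}
    (hc : Ctx D κ b r)
    (ih : ∀ q < r, Ctx D κ b q → b.Ls D (b.Wd D) q → ∀ B h, b.Wd D q B h → ∀ G,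
      D.Gn (b.u B) G → ∀ X, RR D (b.u B) G X → ¬ Dcc h G X → b.Nn D (b.Wd D) q B h G X →
      UC D b q B h G X)
    {B h : V} (hw : b.Wd D r B h) {G : V} (hG : D.Gn (b.u B) G) {X : V}
    (hX : RR D (b.u B) G X) (hnd : ¬ Dcc h G X) {B' h' G' y : V}
    (hE : b.Ew D (b.Wd D) r B h G B' h' G')
    (hyK : ¬ b.Kb D (b.Wd D) r B' h' G' X y) {j : V} (hj : j ∈ b.u B') (hcj : b.Co j)
    (hSn : Sn D G' X y j) (hlt : b.sj D (b.Wd D) r (tm j) < r) : UC D b r B h G X := by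
  have hb := hc.ok
  have am := hc.am
  have hD : D.Ok := am.ok
  obtain ⟨pv, pa, pi, pp, pf, pk⟩ := LLt D κ b r hc
  have cq := ctx_le hc hlt.le
  obtain ⟨pvq, paq, piq, ppq, pfq, pkq⟩ := LLt D κ b _ cq
  obtain ⟨A, h00, hAO, hAB, hAu, hwA, hLW, hrest⟩ :=
    view L.we L.sj L.oa L.ha L.w2 hc hE.w hj hcj pfq
  obtain ⟨hLs, hcn, htH, hFr⟩ := hrest hlt
  generalize hqq : b.sj D (b.Wd D) r (tm j) = q at *
  have sA : b.u A ⊆ b.u B' := (hb.leO _ _ hAB).2.2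
  have gA : D.Gn (b.u A) (gs G' (b.u A)) := gface L am hb hAB hE.g
  have hXA : RR D (b.u A) G' X := by rw [hAu]; exact hSn.1
  have hyA : RR D (b.u A) G' y := by rw [hAu]; exact hSn.2
  have hXA' : RR D (b.u A) (gs G' (b.u A)) X := (LC.RR_gs (fun _ h => h)).2 hXA
  have hyA' : RR D (b.u A) (gs G' (b.u A)) y := (LC.RR_gs (fun _ h => h)).2 hyA
  have hisB : His D (b.u B) h r := (iw L hw).wo.hs
  have ndA : ¬ Dcc h00 (gs G' (b.u A)) X := by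
    rintro ⟨y', e, hE0⟩
    have e1 := (Ent_gs L am hb hAB (iw L hwA).wo.hs hE.g X y' e).1 hE0
    have e2 := (Ent_pr L am hb hAB (iw L hwA).wo.hs hE.g e1).2.2.1
    have e3 := (hLW.e G' hE.g X hXA y' e).1 ⟨e1, e2⟩
    have hXB : RR D (b.u B) G' X := by
      refine (LC.RR_gs (fun _ h => h)).1 (?_ : RR D (b.u B) (gs G' (b.u B)) X)
      rw [hE.r]; exact hX
    have e4 := (hE.le.e G' hE.g X hXB y' e).2 ⟨e3.1, e2.trans hlt⟩
    have e5 := (Ent_gs L am hb hE.le.le hisB hE.g X y' e).2 e4.1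
    rw [hE.r] at e5
    exact hnd ⟨y', e, e5⟩
  have hnR := hLs A h00 hwA _ gA X hXA' ndA
  have hPP := pp q hlt.le hLs (by rw [hcn]; exact htH) A h00 B' h' hwA hE.w hLW hFr G' hE.g X hXA
  have hyq : ¬ b.Kb D (b.Wd D) q A h00 (gs G' (b.u A)) X y := fun hk => hyK (hPP.1 y hyA hk)
  have hNq : b.Nn D (b.Wd D) q A h00 (gs G' (b.u A)) X := by
    by_contra hn
    exact hnR ⟨hn, y, hyA', hyq⟩
  obtain ⟨Bs, hs, Gs, ys, ewS, ys1, ys2, ysK, ysU⟩ :=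
    ih q hlt cq hLs A h00 hwA _ gA X hXA' ndA hNq
  obtain ⟨π, B2, h2, B3, h3, si, idn, eB, eh, w2, l2, hint, w3, l3, l3', hco⟩ :=
    amalg2 L hc hlt.le pvq pa hwA hE.w hLW hFr (ζ := (b.cn D (b.Wd D) q).toZFSet)
      (Or.inr ⟨by rw [hcn]; exact htH, hLs, rfl⟩) ewS.w ewS.le
  have o3 : B3 ∈ b.Ob := (iw L w3).wo.o.o
  have o2 : B2 ∈ b.Ob := (iw L w2).wo.o.o
  have oA : A ∈ b.Ob := hAO.o
  have hi := si.i
  obtain ⟨g21, g22, g23, g24, g25⟩ := g2 L hc hi ewS.le.le idn ewS.g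
  set G2 := gi D π (b.u B2) Gs with hG2
  have hrr : gs G2 (b.u A) = gs G' (b.u A) := by rw [g22, ewS.r]
  obtain ⟨X', x1, x2, x3, x4⟩ := nmC L hc l3.le l3'.le l2.le hAB hE.g g21 hrr hXA
  have hk2 : ¬ b.Kb D (b.Wd D) q B2 h2 G2 X ys := by
    have w2' := w2
    rw [eB, eh] at w2'
    have := (pvq.t π Bs (b.u B2) hs ewS.w si w2' Gs ewS.g X).1 ys
    rw [← eB, ← eh] at this
    exact fun h => ysK (this.2 h)
  have hys2 : RR D (b.u B2) G2 ys := (g23 ys).2 ys1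
  obtain ⟨Y', y1, y2, y3⟩ := (RR_nam L am hb (hb.rfl _ o2) g21).1 hys2
  have huns : ¬ ∃ k ∈ b.u B2, b.Co k ∧ Sn D G2 X ys k := by
    rintro ⟨k, hk, hck, hSk⟩
    obtain ⟨-, -, q3, -⟩ := L.qi1 D hD b.l b.S π _ _ (sl hb) hi
    obtain ⟨hi1, hi2⟩ := q3 k hk
    have hci : b.Co (app (inv π) k) := by
      have h5 := hi.k (app (inv π) k) hi1 b.l hb.l3 le_rfl
      rw [hi2] at h5
      exact h5.2 hck
    obtain ⟨hv, -⟩ := si.v _ hi1 hci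
    rw [hi2] at hv
    obtain ⟨-, p2, -, p4, p5, -, -⟩ := (L.oa D κ am b hb Bs (iw L ewS.w).wo.o).2.2 _ hi1 hci
    obtain ⟨-, -, -, -, -, q6⟩ := L.qi3 D hD b.l b.S π _ _ (sl hb) hi Gs ewS.g G2 rfl
    obtain ⟨-, -, q7, -⟩ := q6 (vw (app (inv π) k)) p4 p2 p5
    refine ysU _ hi1 hci ⟨?_, ?_⟩
    · have := hSk.1
      rw [hv] at this
      exact (q7 X).1 this
    · have := hSk.2
      rw [hv] at this
      exact (q7 ys).1 this
  have hde := L.de D κ am b hb q cq.s B2 o2 h2 q (iw L w2).wo.hs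
  have d1 := (hde X' Y' x1 y1 x2 y2).2.2.2.2.2.1
  have d2 := (hde Y' Y' y1 y1 y2 y2).2.2.2.2.2.2.2.2.2.2.1 (b.u A) (uN L am hb oA)
    (hb.leO _ _ l2.le).2.2 (uT L hb oA)
  have d2' := (hde X' Y' x1 y1 x2 y2).2.2.2.2.2.2.2.2.2.2.2 (iw L w2).wo.o
  have hdb := L.db D am.ok _ (uN L am hb o2) (uC hb o2)
  have d3 := (hdb _ (hdb _ d2).1).2.1 _ (hdb _ d2').1
  have d4 := (hdb _ (hdb _ d1).1).2.1 _ d3
  have hy2' : ¬ RR D (b.u A) G2 (ev G2 Y') := by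
    rw [y3, g24]
    exact ys2
  obtain ⟨G3, q1, q2, q3, q4, q5⟩ := force L hc o3 l3.le l3'.le l2.le hint hE.g g21 hrr d4
    ⟨by rw [x3, y3]; exact hk2, hy2', by rw [x3, y3]; exact huns⟩
  rw [x4 G3 q1 q2] at q3 q5
  have e1 : ev (gs G3 (b.u B2)) Y' = ev G3 Y' := ev_gs L am hb l3'.le q1 y1 y2 (fun _ h => h)
  rw [e1] at q3 q4 q5
  have r1 : RR D (b.u B2) G3 (ev G3 Y') := (RR_nam L am hb l3'.le q1).2 ⟨Y', y1, y2, rfl⟩
  have o4 := hb.leO _ _ l3.le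
  have o5 := hb.leO _ _ l3'.le
  have nB' : ¬ RR D (b.u B') G3 (ev G3 Y') := by
    intro hcon
    have := L.qrm D am.ok _ G3 _ _ (uN L am hb o3) (uC hb o3) q1 (uN L am hb o4.1)
      (uN L am hb o2) o4.2.2 o5.2.2 (uT L hb o4.1) (uT L hb o2) _ hcon r1
    rw [hint] at this
    exact q4 ((LC.RR_gs (hb.leO _ _ l2.le).2.2).2 this)
  have sB : b.u B ⊆ b.u B' := (hb.leO _ _ hE.le.le).2.2
  refine ⟨B3, h3, G3, ev G3 Y', ⟨w3, ?_, q1, ?_⟩, RR_mono L am hb l3'.le q1 r1, ?_, ?_, ?_⟩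
  · exact (L.lw D κ am b hb).2.1 r B h B' h' B3 h3 r r (iw L hw).wo.o.o hisB
      (iw L hE.w).wo.hs hE.le l3
  · rw [← LC.gs_gs sB, q2, hE.r]
  · intro hcon
    apply nB'
    have oB : B ∈ b.Ob := (iw L hw).wo.o.o
    exact (L.qrn D am.ok _ G3 _ (uN L am hb o3) (uC hb o3) q1 (uN L am hb oB)
      (fun i hi => o4.2.2 (sB hi)) (uT L hb oB)).2.2.2.2.2.2.2.1 _ (uN L am hb o4.1) sB o4.2.2
      (uT L hb o4.1) _ hcon
  · intro hcon
    exact q3 ((L.w2 D κ am b hb).2 r q B2 h2 B3 h3 G3 X _ hlt.le w2 w3 l3' q1 hcon)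
  · intro k hk hck hSk
    rcases hco k hk hck with hkB | hkB
    · obtain ⟨-, p2, -, p4, p5, -, -⟩ := (L.oa D κ am b hb B' (iw L hE.w).wo.o).2.2 k hkB hck
      apply nB'
      exact (L.qrn D am.ok _ G3 _ (uN L am hb o3) (uC hb o3) q1 p4
        (fun i hi => o4.2.2 (p2 hi)) p5).2.2.2.2.2.2.2.1 _ (uN L am hb o4.1) p2 o4.2.2
        (uT L hb o4.1) _ hSk.2
    · obtain ⟨-, p2, -, -⟩ := (L.oa D κ am b hb B2 (iw L w2).wo.o).2.2 k hkB hck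
      exact q5 ⟨k, hkB, hck, (Sn_gs p2).2 hSk⟩

theorem lu (L : Lib) (LLt : T_LL) (A1 : T_A1) (BD : T_BD) (BM : T_BM) {D : Cx} {κ : V}
    {b : BS} : ∀ r : Ordinal.{0}, Ctx D κ b r → b.Ls D (b.Wd D) r → ∀ B h, b.Wd D r B h → ∀ G,
      D.Gn (b.u B) G → ∀ X, RR D (b.u B) G X → ¬ Dcc h G X → b.Nn D (b.Wd D) r B h G X →
      UC D b r B h G X := by
  intro r
  induction r using WellFoundedLT.induction with
  | ind r ih =>
  intro hc hLs B h hw G hG X hX hnd hN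
  by_cases h1 : ∃ B' h' G' y j, b.Ew D (b.Wd D) r B h G B' h' G' ∧
      ¬ b.Kb D (b.Wd D) r B' h' G' X y ∧ j ∈ b.u B' ∧ b.Co j ∧ Sn D G' X y j ∧
      b.sj D (b.Wd D) r (tm j) < r
  · obtain ⟨B', h', G', y, j, e1, e2, e3, e4, e5, e6⟩ := h1
    exact case1 L LLt hc (fun q hq cq hl B h hw G hG X hX hnd hN => ih q hq cq hl B h hw G hG X hX
      hnd hN) hw hG hX hnd e1 e2 e3 e4 e5 e6
  · push Not at h1
    obtain ⟨B', h', G', y, hE, hy, hy0, hyK⟩ := hN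
    by_cases h2 : ∃ j ∈ b.u B', b.Co j ∧ Sn D G' X y j
    · obtain ⟨j, hj, hcj, hSj⟩ := h2
      obtain ⟨pv, pa, pi, pp, pf, pk⟩ := LLt D κ b r hc
      refine case2 L.we L.sj L.oa L.ob L.ha L.w2 A1 L.qrn BD L.bj L.bl BM hc pa pi pf hw hG hX
        hE hy (fun hcon => hy0 ?_) hyK ?_ j.rank j hj rfl hcj hSj
      · have hcon' := (LC.RR_gs (D := D) (G := G') (s := b.u B) (t := b.u B)
          (fun _ h => h)).2 hcon
        rw [hE.r] at hcon'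
        exact (LC.RR_gs (D := D) (fun _ h => h)).1 (by rw [hE.r]; exact hcon')
      · intro k hk hck hSk
        exact le_antisymm ((L.sj b D (b.Wd D)).2.2.2.2.2.2.1 r (tm k))
          (h1 B' h' G' y k hE hyK hk hck hSk)
    · push Not at h2
      exact ⟨B', h', G', y, hE, hy, hy0, hyK, h2⟩

end HV

theorem pf_LU (we : T_PWE) (sj : T_PSJ) (oa : T_POA) (ob : T_POB) (ha : T_PHA) (lw : T_PLW)
    (w2 : T_PW2) (de : T_PDE) (db : T_PDB) (cpf : T_CPF) (qc2 : T_QC2) (qi1 : T_QI1)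
    (qi3 : T_QI3) (qrm : T_QRM) (qrn : T_QRN) (bo : T_BO) (bk : T_BK) (bl : T_BL) (bj : T_BJ)
    (br : T_BR) (ba : T_BA) (ll : T_LL) (a1 : T_A1) (bd : T_BD) (bm : T_BM) : T_LU :=
  fun D κ b r hc hLs B h hw G hG X hX hnd hN =>
    HV.lu ⟨we, sj, oa, ob, ha, lw, w2, de, db, cpf, qc2, qi1, qi3, qrm, qrn, bo, bk, bl, bj, br,
      ba⟩ ll a1 bd bm r hc hLs B h hw G hG X hX hnd hN

end SE.UZ
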