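import Pool.Agent.H21.UZ.LC3

/-!
# MP_f6fd33_lc: amalgamation with a copy (the theorem `LC.amalg` of helper21 with one more
conclusion: the coding labels of the bound)
-/

set_option linter.unusedVariables false

open Ordinal Order Set
open scoped ZFSet

namespace SE.UZ

open SF

namespace LC

variable {D : Cx} {κ : V} {b : BS} {σ r : Ordinal.{0}}

theorem amalg2 (L : Lib) (hc : Ctx D κ b σ) (hr : r ≤ σ) (hV : b.PV D r) (hA : b.PA D σ)
    {C h0 B h : V} (w0 : b.Wd D r C h0) (w : b.Wd D σ B h) (le : b.LW D r C h0 B h)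
    (fr : b.Frs D r C B h) {ζ : V}
    (hζ : (ζ = D.H ∧ r = σ) ∨
      (ζ ∈ D.H ∧ b.Ls D (b.Wd D) r ∧ ζ = (b.cn D (b.Wd D) r).toZFSet))
    {B1 h1 : V} (w1 : b.Wd D r B1 h1) (l1 : b.LW D r C h0 B1 h1) :
    ∃ π B2 h2 B3 h3, b.SI D r π B1 (b.u B2) ∧ Idn π (b.u C) ∧ B2 = b.T π B1 ∧
      h2 = mvh π h1 ∧ b.Wd D r B2 h2 ∧ b.LW D r C h0 B2 h2 ∧ b.u B ∩ b.u B2 = b.u C ∧
      b.Wd D σ B3 h3 ∧ b.LW D σ B h B3 h3 ∧ b.LW D r B2 h2 B3 h3 ∧
      ∀ j ∈ b.u B3, b.Co j → j ∈ b.u B ∨ j ∈ b.u B2 := by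
  have kn := kN hc.am
  have hb := hc.ok
  have iB := iw L w
  have iB1 := iw L w1
  have obB : B ∈ b.Ob := iB.wo.o.o
  obtain ⟨P, B', h', nP, nB', nh', hv, -⟩ := L.cpf D κ b r (ctx_le hc hr) hV C h0 (b.u B) {nS 0}
    (one B1) (one h1) ζ w0 (uH hb obB) (I1_mem hc.am.ok.zfH) (one_mem kn (ob_N hc iB1.wo.o.o))
    (one_mem kn iB1.wo.hs.n) (by
      intro v hv
      rw [ZFSet.mem_singleton.1 hv, app_one, app_one]
      exact ⟨w1, l1⟩) (by
      rcases hζ with h | h
      · exact Or.inl h.1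
      · exact Or.inr h)
  obtain ⟨si, idn, eB, eh, -, w2, l2, hk⟩ := hv (nS 0) (ZFSet.mem_singleton.2 rfl)
  rw [app_one] at si eB eh
  set π := app P (nS 0)
  set B2 := app B' (nS 0)
  set h2 := app h' (nS 0)
  have iB2 := iw L w2
  have obB2 : B2 ∈ b.Ob := iB2.wo.o.o
  have obC : C ∈ b.Ob := (hb.leO _ _ le.le).1
  have sCB : b.u C ⊆ b.u B := (hb.leO _ _ le.le).2.2
  have sCB2 : b.u C ⊆ b.u B2 := (hb.leO _ _ l2.le).2.2
  have hint : b.u B ∩ b.u B2 = b.u C := by
    apply ZFSet.ext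
    intro j
    rw [ZFSet.mem_inter]
    constructor
    · rintro ⟨hj, hj2⟩
      by_contra hcon
      exact (hk j hj2 hcon).2.1 hj
    · intro hj
      exact ⟨sCB hj, sCB2 hj⟩
  have hint' : b.u B2 ∩ b.u B = b.u C := by
    rw [← hint]
    apply ZFSet.ext
    intro j
    rw [ZFSet.mem_inter, ZFSet.mem_inter, and_comm]
  -- the bound
  have ag : b.Ag D {nS 0, nS 1} (two B B2) := by
    refine ⟨two_mem kn (ob_N hc obB) (ob_N hc obB2), I2_mem hc.am.ok.zfH, ?_, ?_⟩
    · intro v hv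
      rcases mem_I2.1 hv with rfl | rfl
      · rw [app_two0]; exact obB
      · rw [app_two1]; exact obB2
    · intro v hv v' hv'
      rcases mem_I2.1 hv with rfl | rfl <;> rcases mem_I2.1 hv' with rfl | rfl
      · rw [app_two0]
        exact ⟨B, hb.rfl _ obB, hb.rfl _ obB, by
          apply ZFSet.ext; intro j; rw [ZFSet.mem_inter, and_self]⟩
      · rw [app_two0, app_two1]
        exact ⟨C, le.le, l2.le, hint.symm⟩
      · rw [app_two0, app_two1]
        exact ⟨C, l2.le, le.le, hint'.symm⟩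
      · rw [app_two1]
        exact ⟨B2, hb.rfl _ obB2, hb.rfl _ obB2, by
          apply ZFSet.ext; intro j; rw [ZFSet.mem_inter, and_self]⟩
  obtain ⟨-, -, ob3⟩ := L.ob D κ hc.am b hb _ _ ag (by
    intro v hv
    rcases mem_I2.1 hv with rfl | rfl
    · rw [app_two0]; exact iB.wo.o
    · rw [app_two1]; exact iB2.wo.o)
  obtain ⟨B3, oB3, hle3, hnew⟩ := ob3 ∅ hc.am.ok.zfH.mempty
  have le3 : b.Le B B3 := by
    have := (hle3 (nS 0) (mem_I2.2 (Or.inl rfl))).2
    rwa [app_two0] at this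
  have le3' : b.Le B2 B3 := by
    have := (hle3 (nS 1) (mem_I2.2 (Or.inr rfl))).2
    rwa [app_two1] at this
  have hnew' : ∀ j ∈ b.u B3, b.Co j → j ∈ b.u B ∨ j ∈ b.u B2 := by
    intro j hj hco
    by_contra hcon
    push Not at hcon
    obtain ⟨⟨e, he, hke⟩, -⟩ := hnew j hj (by
      intro v hv
      rcases mem_I2.1 hv with rfl | rfl
      · rw [app_two0]; exact hcon.1
      · rw [app_two1]; exact hcon.2)
    have h5 : nS e = nS b.l := hke.symm.trans hco
    rw [nS_inj] at h5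
    omega
  obtain ⟨sj1, sj2, sj3, sj4, sj5, sj6, sj7, sj8, sj9, sj10, sj11, sj12⟩ := L.sj b D (b.Wd D)
  -- views
  have hvB : ∀ j ∈ b.u B, b.Co j → vw j ⊆ b.u B := fun j hj hco =>
    ((L.oa D κ hc.am b hb B iB.wo.o).2.2 j hj hco).2.1
  have hvB2 : ∀ j ∈ b.u B2, b.Co j → vw j ⊆ b.u B2 := fun j hj hco =>
    ((L.oa D κ hc.am b hb B2 iB2.wo.o).2.2 j hj hco).2.1
  -- entries over the common face
  have eC : ∀ G, D.Gn (b.u B3) G → ∀ X, RR D (b.u C) G X → ∀ y e, e < r →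
      (Ent h G X y e ↔ Ent h2 G X y e) := by
    intro G hG X hX y e he
    have h5 := le.e _ (gface L hc.am hb le3 hG) X ((RR_gs sCB).2 hX) y e
    have h6 := l2.e _ (gface L hc.am hb le3' hG) X ((RR_gs sCB2).2 hX) y e
    have h7 := Ent_gs L hc.am hb le3 iB.wo.hs hG X y e
    have h8 := Ent_gs L hc.am hb le3' iB2.wo.hs hG X y e
    have iC := iw L w0
    have h10 := Ent_gs L hc.am hb le.le iC.wo.hs (gface L hc.am hb le3 hG) X y e
    have h11 := Ent_gs L hc.am hb l2.le iC.wo.hs (gface L hc.am hb le3' hG) X y e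
    rw [gs_gs sCB] at h10
    rw [gs_gs sCB2] at h11
    have h12 : Ent h (gs G (b.u B)) X y e ↔ Ent h0 (gs G (b.u C)) X y e := by
      rw [h10]
      exact ⟨fun q => (h5.2 ⟨q, he⟩).1, fun q => (h5.1 ⟨q, he⟩).1⟩
    have h13 : Ent h2 (gs G (b.u B2)) X y e ↔ Ent h0 (gs G (b.u C)) X y e := by
      rw [h11]
      exact ⟨fun q => (h6.2 ⟨q, he⟩).1, fun q => (h6.1 ⟨q, he⟩).1⟩
    rw [← h7, ← h8, h12, h13]
  have rcap : ∀ G, D.Gn (b.u B3) G → ∀ X, RR D (b.u B) G X → RR D (b.u B2) G X →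
      RR D (b.u C) G X := by
    intro G hG X h5 h6
    have := L.qrm D hc.am.ok _ G _ _ (uN L hc.am hb oB3.o) (uC hb oB3.o) hG
      (uN L hc.am hb obB) (uN L hc.am hb obB2) (hb.leO _ _ le3).2.2 (hb.leO _ _ le3').2.2
      (uT L hb obB) (uT L hb obB2) X h5 h6
    rwa [hint] at this
  -- restriction of views
  have rvw : ∀ G, D.Gn (b.u B3) G → ∀ (A : V), b.Le A B3 → ∀ j, vw j ⊆ b.u A → D.N (vw j) →
      Tr (vw j) → ∀ X, RR D (vw j) G X → RR D (b.u A) G X := by
    intro G hG A hA j hj n1 n2 X hX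
    have o3 := hb.leO _ _ hA
    exact (L.qrn D hc.am.ok _ G _ (uN L hc.am hb oB3.o) (uC hb oB3.o) hG n1
      (fun i hi => o3.2.2 (hj hi)) n2).2.2.2.2.2.2.2.1 _ (uN L hc.am hb o3.1) hj o3.2.2
      (uT L hb o3.1) X hX
  have af : b.AF D σ {nS 0, nS 1} (two B B2) (two h h2) (st2 σ r) B3 := by
    refine ⟨I2_mem kn, two_mem kn (ob_N hc obB) (ob_N hc obB2),
      two_mem kn iB.wo.hs.n iB2.wo.hs.n, ?_, oB3, ?_, ?_, ?_, ?_, ?_, ?_⟩
    · rw [resS_I2, st2_0, st2_1]
      exact two_mem kn hc.s (ctx_le hc hr).s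
    · intro v hv
      rcases mem_I2.1 hv with rfl | rfl
      · rw [st2_0]
      · rw [st2_1]; exact hr
    · intro v hv
      rcases mem_I2.1 hv with rfl | rfl
      · rw [st2_0, app_two0, app_two0]; exact w
      · rw [st2_1, app_two1, app_two1]; exact w2
    · intro v hv
      rcases mem_I2.1 hv with rfl | rfl
      · rw [app_two0]; exact le3
      · rw [app_two1]; exact le3'
    · intro G hG v hv v' hv' X hX y e he he'
      rcases mem_I2.1 hv with rfl | rfl <;> rcases mem_I2.1 hv' with rfl | rfl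
      · exact Iff.rfl
      · rw [app_two0, app_two1, hint] at hX
        rw [app_two0, app_two1]
        rw [st2_1] at he'
        exact eC G hG X hX y e he'
      · rw [app_two0, app_two1, hint'] at hX
        rw [app_two0, app_two1]
        rw [st2_1] at he
        exact (eC G hG X hX y e he).symm
      · exact Iff.rfl
    · intro j hj hco
      by_cases hjB : j ∈ b.u B
      · refine ⟨nS 0, mem_I2.2 (Or.inl rfl), ?_⟩
        rw [app_two0, app_two0, st2_0]
        refine ⟨hvB j hjB hco, sj7 _ _, iB.w0 j hjB hco, ?_⟩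
        intro G hG X y e _ hE
        have h5 := (Ent_gs L hc.am hb le3 iB.wo.hs hG X y e).2 hE
        have h6 := iB.w1 j hjB hco _ (gface L hc.am hb le3 hG) X y e h5
        have h7 := ((L.qrn D hc.am.ok _ G _ (uN L hc.am hb oB3.o) (uC hb oB3.o) hG
          (uN L hc.am hb obB) (hb.leO _ _ le3).2.2 (uT L hb obB)).2.2.2.2.2.2.2.2.2.2.2.2.2.2 j
          hjB).2.1
        rwa [h7] at h6
      · have hjB2 : j ∈ b.u B2 := (hnew' j hj hco).resolve_left hjB
        have hjC : j ∉ b.u C := fun h => hjB (sCB h)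
        have hsr : b.sj D (b.Wd D) σ (tm j) ≤ r := by
          rcases hζ with ⟨-, h⟩ | ⟨h5, h6, h7⟩
          · rw [h]; exact sj7 _ _
          · refine sj11 σ r (tm j) h6 ?_
            rw [toZFSet_succ, ← h7]
            exact (hk j hjB2 hjC).2.2 h5 hco
        refine ⟨nS 1, mem_I2.2 (Or.inr rfl), ?_⟩
        rw [app_two1, app_two1, st2_1]
        have hsr' : b.sj D (b.Wd D) r (tm j) = b.sj D (b.Wd D) σ (tm j) := by
          rw [sj9 r σ (tm j) hr]
          exact min_eq_right hsr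
        refine ⟨hvB2 j hjB2 hco, hsr, ?_, ?_⟩
        · rw [← hsr']
          exact iB2.w0 j hjB2 hco
        · intro G hG X y e _ hE
          have h5 := (Ent_gs L hc.am hb le3' iB2.wo.hs hG X y e).2 hE
          have h6 := iB2.w1 j hjB2 hco _ (gface L hc.am hb le3' hG) X y e h5
          have h7 := ((L.qrn D hc.am.ok _ G _ (uN L hc.am hb oB3.o) (uC hb oB3.o) hG
            (uN L hc.am hb obB2) (hb.leO _ _ le3').2.2 (uT L hb obB2)).2.2.2.2.2.2.2.2.2.2.2.2.2.2
            j hjB2).2.1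
          rwa [h7] at h6
    · intro G hG j hj hco v hv X y e hE hLs htm
      -- the entry of `(B, h)`, the label of `B`
      have cBB : ∀ X y e, j ∈ b.u B → b.Ls D (b.Wd D) e →
          tm j ∈ (succ (b.cn D (b.Wd D) e)).toZFSet → Ent h G X y e → ¬ Sn D G X y j := by
        intro X y e hjB hLs htm hE hS
        have h5 := (Ent_gs L hc.am hb le3 iB.wo.hs hG X y e).2 hE
        have h6 := (Ent_pr L hc.am hb le3 iB.wo.hs hG hE).2.2.1
        exact (iB.w3 e h6 hLs _ (gface L hc.am hb le3 hG) X y h5).2 j hjB hco htm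
          ((Sn_gs (hvB j hjB hco)).2 hS)
      have cB2 : ∀ X y e, j ∈ b.u B2 → b.Ls D (b.Wd D) e →
          tm j ∈ (succ (b.cn D (b.Wd D) e)).toZFSet → Ent h2 G X y e → ¬ Sn D G X y j := by
        intro X y e hjB hLs htm hE hS
        have h5 := (Ent_gs L hc.am hb le3' iB2.wo.hs hG X y e).2 hE
        have h6 := (Ent_pr L hc.am hb le3' iB2.wo.hs hG hE).2.2.1
        exact (iB2.w3 e h6 hLs _ (gface L hc.am hb le3' hG) X y h5).2 j hjB hco htm
          ((Sn_gs (hvB2 j hjB hco)).2 hS)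
      rcases mem_I2.1 hv with rfl | rfl
      · rw [app_two0] at hE
        by_cases hjB : j ∈ b.u B
        · exact cBB X y e hjB hLs htm hE
        · have hjB2 : j ∈ b.u B2 := (hnew' j hj hco).resolve_left hjB
          intro hS
          obtain ⟨-, h5, -, h6, h7, -⟩ := (L.oa D κ hc.am b hb B2 iB2.wo.o).2.2 j hjB2 hco
          have p1 := Ent_pr L hc.am hb le3 iB.wo.hs hG hE
          have x1 := rcap G hG X p1.1 (rvw G hG B2 le3' j h5 h6 h7 X hS.1)
          have x2 := rcap G hG y p1.2.1 (rvw G hG B2 le3' j h5 h6 h7 y hS.2)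
          by_cases hre : r ≤ e
          · refine fr _ (gface L hc.am hb le3 hG) X y e
              ((Ent_gs L hc.am hb le3 iB.wo.hs hG X y e).2 hE) hre hLs ?_
            exact ⟨(RR_gs sCB).2 x1, (RR_gs sCB).2 x2⟩
          · exact cB2 X y e hjB2 hLs htm ((eC G hG X x1 y e (not_le.1 hre)).1 hE) hS
      · rw [app_two1] at hE
        by_cases hjB2 : j ∈ b.u B2
        · exact cB2 X y e hjB2 hLs htm hE
        · have hjB : j ∈ b.u B := (hnew' j hj hco).resolve_right hjB2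
          intro hS
          obtain ⟨-, h5, -, h6, h7, -⟩ := (L.oa D κ hc.am b hb B iB.wo.o).2.2 j hjB hco
          have p1 := Ent_pr L hc.am hb le3' iB2.wo.hs hG hE
          have x1 := rcap G hG X (rvw G hG B le3 j h5 h6 h7 X hS.1) p1.1
          exact cBB X y e hjB hLs htm ((eC G hG X x1 y e p1.2.2.1).2 hE) hS
  obtain ⟨hp, wp, lp⟩ := hA _ _ _ _ _ af
  have q0 := lp (nS 0) (mem_I2.2 (Or.inl rfl))
  have q1 := lp (nS 1) (mem_I2.2 (Or.inr rfl))
  rw [app_two0, app_two0, st2_0] at q0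
  rw [app_two1, app_two1, st2_1] at q1
  exact ⟨π, B2, h2, B3, hp, si, idn, eB, eh, w2, l2, hint, wp, q0, q1, hnew'⟩

end LC

end SE.UZ
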