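import Pool.Agent.H75.UZ.TarKO

/-!
# Module KO8 of the board uz_modules (MP_f6fd33_lc): completeness of improvements
-/

set_option autoImplicit false
set_option linter.unusedVariables false

open Ordinal Order Set
open scoped ZFSet

namespace SE.UZ.H7KO8

open SF CAA SE.UZ

/-- the choice of `t` below `A` with the value `app c' B` -/
noncomputable def Qf (A B T c c' j : V) : V :=
  (⋃₀ (T.sep fun t => ZFSet.pair t A ∈ EO ∧ app c t = app c' B ∧
    ∀ t' ∈ T, ZFSet.pair t' A ∈ EO → app c t' = app c' B → app j t ⊆ app j t') : ZFSet)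

theorem tm_Qf (hK : T_KC) : Tm ZFm (fun _ v => Qf (v 0) (v 1) (v 2) (v 3) (v 4) (v 5)) := by
  have hE : Tm ZFm (fun _ _ => EO) := hK.2.1
  refine Tm.sUnion (Tm.sep (R := fun _ v => ZFSet.pair (v 0) (v 1) ∈ EO ∧
    app (v 4) (v 0) = app (v 5) (v 2) ∧ ∀ t' ∈ v 3, ZFSet.pair t' (v 1) ∈ EO →
      app (v 4) t' = app (v 5) (v 2) → app (v 6) (v 0) ⊆ app (v 6) t') ?_ (Tm.var 2))
  refine (Dfb.pairMem (Tm.var 0) (Tm.var 1) hE).and ((Dfb.eq (Tm.app (Tm.var 4) (Tm.var 0))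
    (Tm.app (Tm.var 5) (Tm.var 2))).and ?_)
  exact (Dfb.ball (R := fun _ v => ZFSet.pair (v 0) (v 2) ∈ EO →
      app (v 5) (v 0) = app (v 6) (v 3) → app (v 7) (v 1) ⊆ app (v 7) (v 0)) ktr_zfm (Tm.var 3)
    ((Dfb.pairMem (Tm.var 0) (Tm.var 2) hE).imp ((Dfb.eq (Tm.app (Tm.var 5) (Tm.var 0))
      (Tm.app (Tm.var 6) (Tm.var 3))).imp (Dfb.subset (Tm.app (Tm.var 7) (Tm.var 1))
      (Tm.app (Tm.var 7) (Tm.var 0)))))).congr fun M k v hv => Iff.rfl

/-- the function -/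
noncomputable def Gf (n : ℕ) (h T c c' j e : V) : V :=
  sel (h = ∅) (nS n) (sel (fst h = ∅) (sel (app c' (fst (snd h)) ⊆ app c (snd (snd h))) (nS 1) ∅)
    (Qf (sel (fst h = nS 1) (fst (snd (snd h))) (snd (app e (nS n))))
      (sel (fst h = nS 1) (snd (snd (snd h))) (snd (app e (nS n)))) T c c' j))

theorem tm_Gf (hK : T_KC) (n : ℕ) :
    Tm ZFm (fun _ v => Gf n (v 0) (v 1) (v 2) (v 3) (v 4) (v 5)) := by
  have hs : Tm ZFm (fun _ v => snd (app (v 5) (nS n))) := Tm.snd (Tm.app (Tm.var 5) (Tm.nS n))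
  have hA : Tm ZFm (fun _ v => sel (fst (v 0) = nS 1) (fst (snd (snd (v 0))))
      (snd (app (v 5) (nS n)))) := Tm.sel (Dfb.eq (Tm.fst (Tm.var 0)) (Tm.nS 1))
    (Tm.fst (Tm.snd (Tm.snd (Tm.var 0)))) hs
  have hB : Tm ZFm (fun _ v => sel (fst (v 0) = nS 1) (snd (snd (snd (v 0))))
      (snd (app (v 5) (nS n)))) := Tm.sel (Dfb.eq (Tm.fst (Tm.var 0)) (Tm.nS 1))
    (Tm.snd (Tm.snd (Tm.snd (Tm.var 0)))) hs
  have hQ : Tm ZFm (fun _ v => Qf (sel (fst (v 0) = nS 1) (fst (snd (snd (v 0))))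
      (snd (app (v 5) (nS n)))) (sel (fst (v 0) = nS 1) (snd (snd (snd (v 0))))
      (snd (app (v 5) (nS n)))) (v 1) (v 2) (v 3) (v 4)) := by
    refine (Tm.comp (tm_Qf hK) (fun i => match i with
      | 0 => fun _ v => sel (fst (v 0) = nS 1) (fst (snd (snd (v 0)))) (snd (app (v 5) (nS n)))
      | 1 => fun _ v => sel (fst (v 0) = nS 1) (snd (snd (snd (v 0)))) (snd (app (v 5) (nS n)))
      | i + 2 => fun _ v => v (i + 1)) ?_)
    intro i
    match i with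
    | 0 => exact hA
    | 1 => exact hB
    | i + 2 => exact Tm.var (i + 1)
  exact Tm.sel (Dfb.eq (Tm.var 0) Tm.empty) (Tm.nS n) (Tm.sel (Dfb.eq (Tm.fst (Tm.var 0)) Tm.empty)
    (Tm.sel (Dfb.subset (Tm.app (Tm.var 3) (Tm.fst (Tm.snd (Tm.var 0))))
      (Tm.app (Tm.var 2) (Tm.snd (Tm.snd (Tm.var 0))))) (Tm.nS 1) Tm.empty) hQ)

theorem tm_w (hft : Tm ZFm (fun _ _ => hf)) : Tm ZFm (fun _ v => resS om fun m =>
    (⋃₀ (imS (hf.sep fun h => app (v 0) h = m) fun h => app (v 1) h) : ZFSet)) := by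
  refine Tm.resS (g := fun _ u => (⋃₀ (imS (hf.sep fun h => app (u 1) h = u 0)
    fun h => app (u 2) h) : ZFSet)) Tm.om ?_
  refine Tm.iUn (f := fun _ u => hf.sep fun h => app (u 1) h = u 0)
    (g := fun _ u => app (u 3) (u 0)) ?_ (Tm.app (Tm.var 3) (Tm.var 0))
  exact Tm.sep (R := fun _ u => app (u 2) (u 0) = u 1)
    (Dfb.eq (Tm.app (Tm.var 2) (Tm.var 0)) (Tm.var 1)) hft

/-- outside of the domain -/
theorem app_out {f x : V} (h : x ∉ dm f) : app f x = ∅ := by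
  unfold app
  have h1 : ((⋃₀ (⋃₀ f : ZFSet) : ZFSet).sep fun y => ZFSet.pair x y ∈ f) = ∅ := by
    ext z
    rw [ZFSet.mem_sep]
    constructor
    · rintro ⟨-, hz⟩
      exact absurd (mem_dm.2 ⟨z, hz⟩) h
    · intro hz
      exact absurd hz (ZFSet.notMem_empty _)
  rw [h1]
  ext z
  rw [ZFSet.mem_sUnion]
  constructor
  · rintro ⟨w, hw, -⟩
    exact absurd hw (ZFSet.notMem_empty _)
  · intro hz
    exact absurd hz (ZFSet.notMem_empty _)

theorem hf_pair (hA : T_AA) {a b : V} (h : ZFSet.pair a b ∈ hf) : a ∈ hf ∧ b ∈ hf := by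
  have h1 : ({a, b} : V) ∈ hf := hA.1 _ h (by simp [ZFSet.pair])
  exact ⟨hA.1 _ h1 (by simp), hA.1 _ h1 (by simp)⟩

theorem hf_fst (hA : T_AA) (h0 : (∅ : V) ∈ hf) {z : V} (hz : z ∈ hf) : fst z ∈ hf := by
  by_cases h : ∃ x y, z = ZFSet.pair x y
  · obtain ⟨x, y, rfl⟩ := h
    rw [fst_pair]
    exact (hf_pair hA hz).1
  · rw [fst_eq_of_not h]
    exact h0

theorem hf_snd (hA : T_AA) (h0 : (∅ : V) ∈ hf) {z : V} (hz : z ∈ hf) : snd z ∈ hf := by
  by_cases h : ∃ x y, z = ZFSet.pair x y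
  · obtain ⟨x, y, rfl⟩ := h
    rw [snd_pair]
    exact (hf_pair hA hz).2
  · rw [snd_eq_of_not h]
    exact h0

theorem nS_ne {m n : ℕ} (h : m ≠ n) : (nS m : V) ≠ nS n := fun e => h (nS_inj.1 e)

theorem pair_ne (a b : V) : ZFSet.pair a b ≠ ∅ := by
  intro h
  have : ({a} : V) ∈ ZFSet.pair a b := by simp [ZFSet.pair]
  rw [h] at this
  exact ZFSet.notMem_empty _ this

/-- the choice -/
theorem Qf_eq {A B T c c' j : V} (hT : T ⊆ hf) (hj : Inj j)
    (h : ∃ t ∈ T, ZFSet.pair t A ∈ EO ∧ app c t = app c' B) :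
    Qf A B T c c' j ∈ T ∧ ZFSet.pair (Qf A B T c c' j) A ∈ EO ∧
      app c (Qf A B T c c' j) = app c' B := by
  classical
  have hn : ∀ t ∈ T, ∃ k : ℕ, app j t = nS k := fun t ht => mem_om.1 (app_mem hj.1 (hT ht))
  have hex : ∃ k : ℕ, ∃ t ∈ T, (ZFSet.pair t A ∈ EO ∧ app c t = app c' B) ∧ app j t = nS k := by
    obtain ⟨t, ht, h1⟩ := h
    obtain ⟨k, hk⟩ := hn t ht
    exact ⟨k, t, ht, h1, hk⟩
  obtain ⟨t, ht, h1, h2⟩ := Nat.find_spec hex
  have hmin : ∀ t' ∈ T, ZFSet.pair t' A ∈ EO → app c t' = app c' B → app j t ⊆ app j t' := by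
    intro t' ht' h3 h4
    obtain ⟨k, hk⟩ := hn t' ht'
    have h5 : Nat.find hex ≤ k := Nat.find_min' hex ⟨t', ht', ⟨h3, h4⟩, hk⟩
    rw [h2, hk]
    unfold nS
    rw [toZFSet_subset_toZFSet_iff]
    exact_mod_cast h5
  have hS : (T.sep fun t => ZFSet.pair t A ∈ EO ∧ app c t = app c' B ∧
      ∀ t' ∈ T, ZFSet.pair t' A ∈ EO → app c t' = app c' B → app j t ⊆ app j t') = {t} := by
    ext z
    rw [ZFSet.mem_sep, ZFSet.mem_singleton]
    constructor
    · rintro ⟨hz, h3, h4, h5⟩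
      refine hj.2 z (hT hz) t (hT ht) ?_
      have a1 := h5 t ht h1.1 h1.2
      have a2 := hmin z hz h3 h4
      ext y
      exact ⟨fun h => a1 h, fun h => a2 h⟩
    · rintro rfl
      exact ⟨ht, h1.1, h1.2, hmin⟩
  have hQ : Qf A B T c c' j = t := by
    unfold Qf
    rw [hS, ZFSet.sUnion_singleton]
  rw [hQ]
  exact ⟨ht, h1⟩

theorem Qf_hf {A B T c c' j : V} (h0 : (∅ : V) ∈ hf) (hT : T ⊆ hf) (hj : Inj j) :
    Qf A B T c c' j ∈ hf := by
  by_cases h : ∃ t ∈ T, ZFSet.pair t A ∈ EO ∧ app c t = app c' B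
  · exact hT (Qf_eq hT hj h).1
  · have hS : (T.sep fun t => ZFSet.pair t A ∈ EO ∧ app c t = app c' B ∧
        ∀ t' ∈ T, ZFSet.pair t' A ∈ EO → app c t' = app c' B → app j t ⊆ app j t') = ∅ := by
      rw [ZFSet.eq_empty]
      intro z hz
      rw [ZFSet.mem_sep] at hz
      exact h ⟨z, hz.1, hz.2.1, hz.2.2.1⟩
    unfold Qf
    rw [hS, ZFSet.sUnion_empty]
    exact h0

/-- **KO8.** -/
theorem pf_KO8 (hA : T_AA) (hG : T_AG) (hK : T_KC) (hO : T_KO3) : T_KO8 := by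
  intro W k e j we wj ke a x wa ra wx rx y c y' c' hm hm' n hlt hn
  obtain ⟨K1, K2, K3, K4, K5, -⟩ := hO
  have me := k.mempty
  have hft : Tm ZFm (fun _ _ => hf) := hA.2.2.2.2.2.2.2.1
  have h0 : (∅ : V) ∈ hf := by
    have := hA.2.1 0
    rwa [nS_zero] at this
  have hj := ke.j
  set T := TO a (prl x y) with hTd
  have hT : T ⊆ hf := fun z hz => (ZFSet.mem_sep.1 (ZFSet.mem_sep.1 hz).1).1
  have wT : W T := by
    have h1 : Tm ZFm (fun _ v => prl (v 0) (v 1)) :=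
      (Tm.resS (f := fun _ _ => om) (g := fun _ v => ZFSet.pair (app (v 1) (v 0))
        (app (v 2) (v 0))) Tm.om (Tm.pair (Tm.app (Tm.var 1) (Tm.var 0))
        (Tm.app (Tm.var 2) (Tm.var 0)))).congr fun M k v hv => rfl
    have wp : W (prl x y) := h1.1 W k (cons x (cons y fun _ => ∅))
      (((In.cons (fun _ => me) hm.wy).cons wx))
    exact hK.1.1 W k (cons a (cons (prl x y) fun _ => ∅)) ((In.cons (fun _ => me) wp).cons wa)
  -- the function
  have hGh : ∀ h ∈ hf, Gf n h T c c' j e ∈ hf := by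
    intro h hh
    unfold Gf
    by_cases h1 : h = ∅
    · rw [sel_pos h1]
      exact hA.2.1 n
    · rw [sel_neg h1]
      by_cases h2 : fst h = ∅
      · rw [sel_pos h2]
        by_cases h3 : app c' (fst (snd h)) ⊆ app c (snd (snd h))
        · rw [sel_pos h3]
          exact hA.2.1 1
        · rw [sel_neg h3]
          exact h0
      · rw [sel_neg h2]
        exact Qf_hf h0 hT hj
  obtain ⟨g, wg, hg⟩ : ∃ g, W g ∧ ∀ h ∈ hf, app g h = Gf n h T c c' j e := by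
    have t1 : Tm ZFm (fun _ v => resS hf fun h => Gf n h (v 0) (v 1) (v 2) (v 3) (v 4)) :=
      Tm.resS (g := fun _ u => Gf n (u 0) (u 1) (u 2) (u 3) (u 4) (u 5)) hft (tm_Gf hK n)
    refine ⟨_, t1.1 W k (cons T (cons c (cons c' (cons j (cons e fun _ => ∅)))))
      (((((In.cons (fun _ => me) we).cons wj).cons hm'.wc).cons hm.wc).cons wT), fun h hh => ?_⟩
    simp only [cons_zero, cons_succ]
    rw [app_resS hh]
  obtain ⟨w, ww, rw', hw⟩ : ∃ w, W w ∧ Rl w ∧ ∀ h ∈ hf, Gw j w h = Gf n h T c c' j e := by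
    have hset : ∀ h ∈ hf, (⋃₀ (imS (hf.sep fun h' => app j h' = app j h) fun h' => app g h') :
        ZFSet) = app g h := by
      intro h hh
      have : (imS (hf.sep fun h' => app j h' = app j h) fun h' => app g h') = {app g h} := by
        ext z
        rw [mem_imS, ZFSet.mem_singleton]
        constructor
        · rintro ⟨h', h1, rfl⟩
          obtain ⟨h2, h3⟩ := ZFSet.mem_sep.1 h1
          rw [hj.2 h' h2 h hh h3]
        · rintro rfl
          exact ⟨h, ZFSet.mem_sep.2 ⟨hh, rfl⟩, rfl⟩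
      rw [this, ZFSet.sUnion_singleton]
    refine ⟨_, (tm_w hft).1 W k (cons j (cons g fun _ => ∅)) ((In.cons (fun _ => me) wg).cons wj),
      ?_, fun h hh => ?_⟩
    · simp only [cons_zero, cons_succ]
      refine isFunc_resS om hf _ fun m hm1 => ?_
      by_cases hx : ∃ h ∈ hf, app j h = m
      · obtain ⟨h, hh, rfl⟩ := hx
        rw [hset h hh, hg h hh]
        exact hGh h hh
      · have : (imS (hf.sep fun h' => app j h' = m) fun h' => app g h') = ∅ := by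
          rw [ZFSet.eq_empty]
          intro z hz
          rw [mem_imS] at hz
          obtain ⟨h', h1, -⟩ := hz
          obtain ⟨h2, h3⟩ := ZFSet.mem_sep.1 h1
          exact hx ⟨h', h2, h3⟩
        rw [this, ZFSet.sUnion_empty]
        exact h0
    · simp only [cons_zero, cons_succ]
      unfold Gw
      rw [app_resS (app_mem hj.1 hh), hset h hh, hg h hh]
  -- values
  have hs : snd (app e (nS n)) ∈ hf := hf_snd hA h0 (app_mem ke.fn (nS_mem_om n))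
  have w0 : Gw j w ∅ = nS n := by
    rw [hw ∅ h0]
    unfold Gf
    rw [sel_pos rfl]
  have wR : ∀ u ∈ hf, ∀ t ∈ hf, (Rw j w u t ↔ app c' u ⊆ app c t) := by
    intro u hu t ht
    unfold Rw
    rw [hw _ (hA.2.2.2.1 _ h0 _ (hA.2.2.2.1 _ hu _ ht))]
    unfold Gf
    rw [sel_neg (pair_ne _ _), fst_pair, sel_pos rfl, snd_pair, fst_pair, snd_pair]
    constructor
    · intro h
      by_contra h1
      rw [sel_neg h1, ← nS_zero] at h
      exact nS_ne (by norm_num) h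
    · intro h
      rw [sel_pos h]
  have wC : ∀ u ∈ hf, ∀ t ∈ hf, ∀ u' ∈ hf, CwK j w u t u' = Qf t u' T c c' j := by
    intro u hu t ht u' hu'
    unfold CwK
    rw [hw _ (hA.2.2.2.1 _ (hA.2.1 1) _ (hA.2.2.2.1 _ hu _ (hA.2.2.2.1 _ ht _ hu')))]
    unfold Gf
    have h1 : (nS 1 : V) ≠ ∅ := by
      rw [← nS_zero]
      exact nS_ne (by norm_num)
    rw [sel_neg (pair_ne _ _), fst_pair, sel_neg h1, sel_pos rfl, sel_pos rfl, snd_pair, snd_pair,
      fst_pair, snd_pair]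
  have w2 : Gw j w (ZFSet.pair (nS 2) ∅) = Qf (snd (app e (nS n))) (snd (app e (nS n))) T c c' j := by
    rw [hw _ (hA.2.2.2.1 _ (hA.2.1 2) _ h0)]
    unfold Gf
    have h1 : (nS 2 : V) ≠ ∅ := by
      rw [← nS_zero]
      exact nS_ne (by norm_num)
    have h2 : (nS 2 : V) ≠ nS 1 := nS_ne (by norm_num)
    rw [sel_neg (pair_ne _ _), fst_pair, sel_neg h1, sel_neg h2, sel_neg h2]
  -- the main step
  have key : ∀ t u', app c' u' ∈ app c t → Er a x y (Qf t u' T c c' j) t ∧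
      app c' u' ⊆ app c (Qf t u' T c c' j) := by
    intro t u' h
    have ht : t ∈ T := by
      by_contra h1
      rw [K2 _ _ hm.cp t h1] at h
      exact ZFSet.notMem_empty _ h
    obtain ⟨z, hz, h1, h2⟩ := (hm.cp.eq t ht _).1 h
    obtain ⟨q1, q2, q3⟩ := Qf_eq (A := t) (B := u') (c' := c') hT hj ⟨z, hz, h1, h2.symm⟩
    exact ⟨⟨q1, ht, q2⟩, by rw [q3]⟩
  have Qh : ∀ A B, Qf A B T c c' j ∈ hf := fun A B => Qf_hf h0 hT hj
  have kv1 : ∀ i y c, fst (app e i) = ∅ → Kv e j y c i = app c (snd (app e i)) := by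
    intro i y c h
    unfold Kv
    rw [sel_pos h]
  have kv2 : ∀ i y c, fst (app e i) ≠ ∅ → Kv e j y c i = app j (app y (snd (app e i))) := by
    intro i y c h
    unfold Kv
    rw [sel_neg h]
  have rv : ∀ y, Rl y → ∀ s, app y s ∈ hf := by
    intro y ry s
    by_cases hs : s ∈ om
    · exact app_mem ry hs
    · rw [app_out]
      · exact h0
      · rw [(hG.1 y ry).2.1]
        exact hs
  refine ⟨w, ww, rw', ⟨by rw [w0]; exact nS_mem_om n, ?_, ?_, ?_, ?_, ?_⟩⟩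
  · intro u hu t ht u' hu' h1 h2
    rw [wR u hu t ht] at h1
    rw [wC u hu t ht u' hu', wR u' hu' _ (Qh _ _)]
    exact key t u' (h1 ((K3 _ _ hm'.cp).lt _ h2.1 _ h2.2.1 h2.2.2))
  · intro i hi h1
    rw [w0] at hi
    obtain ⟨m, hm1⟩ : ∃ m : ℕ, i = nS m := by
      unfold nS at hi
      obtain ⟨β, hβ, rfl⟩ := Ordinal.mem_toZFSet_iff.1 hi
      obtain ⟨m, rfl⟩ := Ordinal.lt_omega0.1 (hβ.trans (Ordinal.natCast_lt_omega0 n))
      exact ⟨m, rfl⟩
    subst hm1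
    have h2 := hlt m (nS_mem_nS.1 hi)
    have h3 : snd (app e (nS m)) ∈ hf := hf_snd hA h0 (app_mem ke.fn (nS_mem_om m))
    rw [kv1 _ _ _ h1, kv1 _ _ _ h1] at h2
    rw [wR _ h3 _ h3, h2]
  · intro i hi h1
    rw [w0] at hi
    obtain ⟨m, hm1⟩ : ∃ m : ℕ, i = nS m := by
      unfold nS at hi
      obtain ⟨β, hβ, rfl⟩ := Ordinal.mem_toZFSet_iff.1 hi
      obtain ⟨m, rfl⟩ := Ordinal.lt_omega0.1 (hβ.trans (Ordinal.natCast_lt_omega0 n))
      exact ⟨m, rfl⟩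
    subst hm1
    have h2 := hlt m (nS_mem_nS.1 hi)
    rw [kv2 _ _ _ h1, kv2 _ _ _ h1] at h2
    exact hj.2 _ (rv _ hm'.ry _) _ (rv _ hm.ry _) h2
  · rw [w0]
    intro h1
    rw [kv1 _ _ _ h1, kv1 _ _ _ h1] at hn
    rw [w2, wR _ hs _ (Qh _ _)]
    exact key _ _ hn
  · rw [w0]
    intro h1
    rw [kv2 _ _ _ h1, kv2 _ _ _ h1] at hn
    exact hn

end SE.UZ.H7KO8
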