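import Pool.Agent.H7.UZ.View

/-!
# MP_f6fd33_lc: families with two members, restrictions of filters
-/

set_option linter.unusedVariables false

open Ordinal Order Set
open scoped ZFSet

namespace SE.UZ.HV

open SF

/-! ## Restrictions of filters -/

theorem mem_gs {G s p : V} : p ∈ gs G s ↔ p ∈ G ∧ dm p ⊆ s := by
  unfold gs
  exact ZFSet.mem_sep

theorem gs_gs {G s s' : V} (h : s' ⊆ s) : gs (gs G s) s' = gs G s' := by
  apply ZFSet.ext
  intro p
  rw [mem_gs, mem_gs, mem_gs]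
  constructor
  · rintro ⟨⟨h1, -⟩, h3⟩
    exact ⟨h1, h3⟩
  · rintro ⟨h1, h3⟩
    exact ⟨⟨h1, fun x hx => h (h3 hx)⟩, h3⟩

theorem gs_eq {G G' s t : V} (hst : s ⊆ t) (h : gs G t = gs G' t) : gs G s = gs G' s := by
  rw [← gs_gs hst, h, gs_gs hst]

theorem RR_gs {D : Cx} {s G x : V} : RR D s G x ↔ RR D s (gs G s) x := by
  unfold RR
  rw [gs_gs (fun x hx => hx)]

theorem RR_congr {D : Cx} {s G G' x : V} (h : gs G s = gs G' s) :
    RR D s G x ↔ RR D s G' x := by
  unfold RR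
  rw [h]

theorem RR_sub {D : Cx} {s t G x : V} (hst : s ⊆ t) : RR D s (gs G t) x ↔ RR D s G x := by
  unfold RR
  rw [gs_gs hst]

/-! ## Two members -/

/-- the index set with two elements -/
noncomputable def I2 : V := {nS 0, nS 1}

theorem mem_I2 {v : V} : v ∈ I2 ↔ v = nS 0 ∨ v = nS 1 := by
  unfold I2
  rw [ZFSet.mem_insert_iff, ZFSet.mem_singleton]

theorem nS0_mem : nS 0 ∈ I2 := mem_I2.2 (Or.inl rfl)

theorem nS1_mem : nS 1 ∈ I2 := mem_I2.2 (Or.inr rfl)

theorem nS_01 : nS 0 ≠ nS 1 := by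
  intro h
  have := nS_inj.1 h
  omega

theorem nS_N {M : V → Prop} (hM : ZFm M) (n : ℕ) : M (nS n) :=
  hM.trans _ hM.inf _ (mem_om.2 ⟨n, rfl⟩)

/-- the family with the members `x`, `y` -/
noncomputable def two (x y : V) : V := {ZFSet.pair (nS 0) x, ZFSet.pair (nS 1) y}

theorem svl_two (x y : V) : Svl (two x y) := by
  intro a b c h1 h2
  unfold two at h1 h2
  rw [ZFSet.mem_insert_iff, ZFSet.mem_singleton] at h1 h2
  rcases h1 with h1 | h1 <;> rcases h2 with h2 | h2
  · rw [(ZFSet.pair_injective h1).2, (ZFSet.pair_injective h2).2]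
  · exact absurd ((ZFSet.pair_injective h1).1.symm.trans (ZFSet.pair_injective h2).1) nS_01
  · exact absurd ((ZFSet.pair_injective h2).1.symm.trans (ZFSet.pair_injective h1).1) nS_01
  · rw [(ZFSet.pair_injective h1).2, (ZFSet.pair_injective h2).2]

theorem two0 (x y : V) : app (two x y) (nS 0) = x := by
  apply app_eq (svl_two x y)
  unfold two
  exact ZFSet.mem_insert _ _

theorem two1 (x y : V) : app (two x y) (nS 1) = y := by
  apply app_eq (svl_two x y)
  unfold two
  exact ZFSet.mem_insert_iff.2 (Or.inr (ZFSet.mem_singleton.2 rfl))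

theorem N_pair {M : V → Prop} (hM : ZFm M) {x y : V} (hx : M x) (hy : M y) :
    M (ZFSet.pair x y) := by
  have h1 := hM.pair x x hx hx
  have h2 := hM.pair x y hx hy
  have h3 : ({x, x} : V) = {x} := by
    apply ZFSet.ext
    intro z
    rw [ZFSet.mem_insert_iff, ZFSet.mem_singleton]
    tauto
  rw [h3] at h1
  unfold ZFSet.pair
  exact hM.pair _ _ h1 h2

theorem N_two {D : Cx} (hD : D.Ok) {x y : V} (hx : D.N x) (hy : D.N y) : D.N (two x y) := by
  have hM : ZFm D.N := hD.zfc.toZFCm.toZFm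
  have h0 : ∀ n : ℕ, D.N (nS n) := fun n => nS_N hM n
  unfold two
  exact hM.pair _ _ (N_pair hM (h0 0) hx) (N_pair hM (h0 1) hy)

theorem H_I2 {D : Cx} (hD : D.Ok) : I2 ∈ D.H := by
  unfold I2
  exact hD.zfH.pair _ _ (nS_N hD.zfH 0) (nS_N hD.zfH 1)

theorem N_I2 {D : Cx} (hD : D.Ok) : D.N I2 := N_of_H hD (H_I2 hD)

/-- a label of a kind less than `l` is not a coding label -/
theorem not_Co {b : BS} {k : V} (h : Kl b.l k) : ¬ b.Co k := by
  rintro h2
  obtain ⟨e, he, h3⟩ := h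
  have h4 : nS e = nS b.l := by
    rw [← h3]
    exact h2
  have := nS_inj.1 h4
  omega

end SE.UZ.HV
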