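import Pool.Agent.H45.UZ.TarP

/-!
# MP_f6fd33_lc: the view of a coding label; helper lemmas for (K) and (U)
-/

set_option linter.unusedVariables false

open Ordinal Order Set
open scoped ZFSet

namespace SE.UZ.HV

open SF

theorem N_of_H {D : Cx} (hD : D.Ok) {x : V} (hx : x ∈ D.H) : D.N x :=
  hD.zfc.toZFCm.toZFm.trans D.H hD.hN x hx

theorem pair_left {D : Cx} (hD : D.Ok) {x y : V} (h : ZFSet.pair x y ∈ D.H) : x ∈ D.H := by
  have h1 : ({x} : V) ∈ D.H := hD.zfH.trans _ h _ (by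
    unfold ZFSet.pair
    exact ZFSet.mem_insert _ _)
  exact hD.zfH.trans _ h1 _ (ZFSet.mem_singleton.2 rfl)

theorem pair_right {D : Cx} (hD : D.Ok) {x y : V} (h : ZFSet.pair x y ∈ D.H) : y ∈ D.H := by
  have h1 : ({x, y} : V) ∈ D.H := hD.zfH.trans _ h _ (by
    unfold ZFSet.pair
    exact ZFSet.mem_insert_iff.2 (Or.inr (ZFSet.mem_singleton.2 rfl)))
  exact hD.zfH.trans _ h1 _ (ZFSet.mem_insert_iff.2 (Or.inr (ZFSet.mem_singleton.2 rfl)))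

/-- the time of a label in `H` is in `H` -/
theorem tm_H {D : Cx} (hD : D.Ok) {ρ i : V} (hc : CS D ρ) (hi : i ∈ ρ) : tm i ∈ D.H := by
  have hiH : i ∈ D.H := hD.zfH.trans ρ hc.h i hi
  have e := (hc.g i hi).eq
  rw [e] at hiH
  unfold mk lab at hiH
  have h1 := pair_left hD (pair_right hD hiH)
  exact pair_left hD (pair_right hD (pair_right hD h1))

theorem mem_toZ {a b : Ordinal.{0}} (h : a < b) : a.toZFSet ∈ b.toZFSet := by
  exact Ordinal.toZFSet_mem_toZFSet_iff.2 h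

/-- the view of the coding label `j` -/
theorem view (PWE : T_PWE) (PSJ : T_PSJ) (POA : T_POA) (PHA : T_PHA) (PW2 : T_PW2)
    {D : Cx} {κ : V} {b : BS} {σ : Ordinal.{0}} (hC : Ctx D κ b σ) {B h : V}
    (hw : b.Wd D σ B h) {j : V} (hj : j ∈ b.u B) (hcj : b.Co j)
    (hPF : b.PF D (b.sj D (b.Wd D) σ (tm j))) :
    ∃ A h00, b.Obs A ∧ b.Le A B ∧ b.u A = vw j ∧
      b.Wd D (b.sj D (b.Wd D) σ (tm j)) A h00 ∧
      b.LW D (b.sj D (b.Wd D) σ (tm j)) A h00 B h ∧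
      (b.sj D (b.Wd D) σ (tm j) < σ → b.Ls D (b.Wd D) (b.sj D (b.Wd D) σ (tm j)) ∧
        (b.cn D (b.Wd D) (b.sj D (b.Wd D) σ (tm j))).toZFSet = tm j ∧ tm j ∈ D.H ∧
        b.Frs D (b.sj D (b.Wd D) σ (tm j)) A B h) := by
  have hD : D.Ok := hC.am.ok
  have hiw := (PWE b D σ B h).1 hw
  have hO : b.Obs B := hiw.wo.o
  have hcs : CS D (b.u B) := hC.ok.cs B hO.o
  have hBN : D.N (b.u B) := N_of_H hD hcs.h
  obtain ⟨-, -, p3⟩ := POA D κ hC.am b hC.ok B hO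
  obtain ⟨⟨A, hAB, hAu, hAO⟩, hvB, -, hvN, hvT, hvC, -⟩ := p3 j hj hcj
  obtain ⟨-, -, -, -, -, -, s7, s8, -, -, -, s12⟩ := PSJ b D (b.Wd D)
  have hrσ := s7 σ (tm j)
  obtain ⟨h00, hh00, hloc⟩ := hiw.w0 j hj hcj
  generalize hrr : b.sj D (b.Wd D) σ (tm j) = r at *
  have hLW : b.LW D r A h00 B h := by
    refine ⟨hAB, ?_⟩
    intro G hG X hX y e
    rw [hAu] at hX
    have := hloc G hG X hX y e
    constructor
    · rintro ⟨h1, h2⟩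
      exact this.1 h1
    · rintro ⟨h1, h2⟩
      exact ⟨this.2 ⟨h1, h2⟩, h2⟩
  have hHis : His D (b.u B) h σ := hiw.wo.hs
  obtain ⟨-, q2, -⟩ := PHA D hD (b.u B) (b.u B) h σ hBN hcs.c hBN hcs.c (fun _ h => h) hHis
  obtain ⟨-, -, -, -, q6⟩ := q2 r
  have hLW' : b.LW D r A h00 B (hr h r) := by
    refine ⟨hAB, ?_⟩
    intro G hG X hX y e
    rw [hLW.e G hG X hX y e, q6 G X y e]
    tauto
  obtain ⟨w1, -⟩ := PW2 D κ hC.am b hC.ok
  have hwr : b.Wd D r B (hr h r) := w1 σ r B h hrσ hw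
  have hwA : b.Wd D r A h00 := hPF A h00 B (hr h r) hAO (by rw [hAu]; exact hh00) hwr hLW'
  refine ⟨A, h00, hAO, hAB, hAu, hwA, hLW, ?_⟩
  intro hlt
  have h8 := s8 σ (tm j)
  rw [hrr] at h8
  obtain ⟨hLs, hcn⟩ := h8 hlt
  refine ⟨hLs, hcn, tm_H hD hcs hj, ?_⟩
  intro G hG X y e hE hre hLe hXy
  obtain ⟨q1, -, -⟩ := PHA D hD (b.u B) (b.u B) h σ hBN hcs.c hBN hcs.c (fun _ h => h) hHis
  obtain ⟨q1a, -⟩ := q1 G hG
  obtain ⟨-, -, heσ, -⟩ := (q1a X y e).2 hE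
  obtain ⟨-, hns⟩ := hiw.w3 e heσ hLe G hG X y hE
  have h12 := s12 σ e (tm j) hLe heσ
  rw [hrr] at h12
  refine hns j hj hcj (h12 hre) ?_
  rw [hAu] at hXy
  exact hXy

end SE.UZ.HV
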